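import Pool.Agent.R533.SM.Expr

/-!
# The main expressible function
-/

set_option autoImplicit false

namespace Pool.Agent.R533.SM

/-- The value of the variable with index `i`. -/
def X {n : ℕ} (x : Fin n → Bool) (i : ℕ) : Bool := if h : i < n then x ⟨i, h⟩ else false

/-- A truth value as a number. -/
def qb (b : Bool) : ℚ := if b = true then 1 else 0

/-- The number with the binary digits `z 0, …, z (N - 1)`. -/
def zeta (N : ℕ) (z : ℕ → Bool) : ℕ := ∑ p ∈ Finset.range N, if z p = true then 2 ^ p else 0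

theorem zeta_succ (N : ℕ) (z : ℕ → Bool) :
    zeta (N + 1) z = 2 ^ N * (z N).toNat + zeta N z := by
  unfold zeta
  rw [Finset.sum_range_succ, add_comm]
  congr 1
  cases z N <;> simp

theorem zeta_lt (N : ℕ) (z : ℕ → Bool) : zeta N z < 2 ^ N := by
  induction N with
  | zero => simp [zeta]
  | succ N ih =>
    rw [zeta_succ, pow_succ]
    have : (z N).toNat ≤ 1 := Bool.toNat_le _
    nlinarith

theorem testBit_zeta (N : ℕ) (z : ℕ → Bool) : ∀ p < N, (zeta N z).testBit p = z p := by
  induction N with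
  | zero => intro p hp; omega
  | succ N ih =>
    intro p hp
    rw [zeta_succ, Nat.testBit_two_pow_mul_add _ (zeta_lt N z)]
    split_ifs with h
    · exact ih p h
    · have : p = N := by omega
      subst this
      simp
      cases z p <;> simp

theorem zeta_cast (N : ℕ) (z : ℕ → Bool) :
    (zeta N z : ℚ) = ∑ p ∈ Finset.range N, 2 ^ p * qb (z p) := by
  unfold zeta qb
  push_cast
  refine Finset.sum_congr rfl fun p _ => ?_
  split_ifs <;> simp

/-- Weights. -/
def wgt (N a b e : ℕ) (v : Fin (4 + N)) : ℕ :=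
  if v.val = 0 then a else if v.val = 1 then b else if v.val < 4 then 0 else e * 2 ^ (v.val - 4)

theorem wt_wgt (N a b e : ℕ) (x : Fin (4 + N) → Bool) :
    wt (wgt N a b e) x = a * (X x 0).toNat + b * (X x 1).toNat + e * zeta N (fun p => X x (4 + p)) := by
  unfold wt
  rw [Fin.sum_univ_add, Fin.sum_univ_four]
  have h0 : x (Fin.castAdd N 0) = X x 0 := by
    unfold X
    rw [dif_pos (by omega)]
    rfl
  have h1 : x (Fin.castAdd N 1) = X x 1 := by
    unfold X
    rw [dif_pos (by omega)]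
    rfl
  have e0 : wgt N a b e (Fin.castAdd N 0) = a := by simp [wgt]
  have e1 : wgt N a b e (Fin.castAdd N 1) = b := by simp [wgt]
  have e2 : wgt N a b e (Fin.castAdd N 2) = 0 := by simp [wgt]
  have e3 : wgt N a b e (Fin.castAdd N 3) = 0 := by simp [wgt]
  rw [h0, h1, e0, e1, e2, e3]
  have h5 : ∑ i : Fin N, (if x (Fin.natAdd 4 i) = true then wgt N a b e (Fin.natAdd 4 i) else 0) =
      e * zeta N (fun p => X x (4 + p)) := by
    unfold zeta
    rw [Finset.sum_range, Finset.mul_sum]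
    refine Finset.sum_congr rfl fun i _ => ?_
    have h6 : x (Fin.natAdd 4 i) = X x (4 + i) := by
      unfold X
      rw [dif_pos (by omega)]
      rfl
    have h7 : wgt N a b e (Fin.natAdd 4 i) = e * 2 ^ (i : ℕ) := by
      unfold wgt
      simp
      intro h
      omega
    rw [h6, h7]
    split_ifs <;> simp
  rw [h5]
  cases X x 0 <;> cases X x 1 <;> simp

section Aux

variable (P : ℕ → ℚ)

/-- Partial sums. -/
def bb (w : ℕ) : ℚ := ∑ i ∈ Finset.range w, P i

/-- Weighted partial sums. -/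
def aa (w : ℕ) : ℚ := ∑ i ∈ Finset.range w, P i * (4 * ((w : ℚ) - i) - 1)

theorem bb_succ (w : ℕ) : bb P (w + 1) = bb P w + P w := by
  unfold bb
  rw [Finset.sum_range_succ]

theorem aa_succ (w : ℕ) : aa P (w + 1) = aa P w + 4 * bb P w + 3 * P w := by
  unfold aa bb
  rw [Finset.sum_range_succ, Finset.mul_sum, ← Finset.sum_add_distrib]
  congr 1
  · refine Finset.sum_congr rfl fun i _ => ?_
    push_cast
    ring
  · push_cast
    ring

/-- The concave function. -/
def phi (M : ℚ) (U : ℕ) : ℚ :=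
  bb P (U / 2) * ((U % 2 : ℕ) : ℚ) + aa P (U / 2) / 2 - M / 4 * (U : ℚ) ^ 2

theorem phi_even (M : ℚ) (w : ℕ) : phi P M (2 * w) = aa P w / 2 - M * (w : ℚ) ^ 2 := by
  unfold phi
  have h1 : 2 * w / 2 = w := by omega
  have h2 : 2 * w % 2 = 0 := by omega
  rw [h1, h2]
  push_cast
  ring

theorem phi_odd (M : ℚ) (w : ℕ) :
    phi P M (2 * w + 1) = bb P w + aa P w / 2 - M / 4 * (2 * (w : ℚ) + 1) ^ 2 := by
  unfold phi
  have h1 : (2 * w + 1) / 2 = w := by omega
  have h2 : (2 * w + 1) % 2 = 1 := by omega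
  rw [h1, h2]
  push_cast
  ring

theorem phi_concave {M : ℚ} (h0 : ∀ w, 0 ≤ P w) (hM : ∀ w, 3 * P w ≤ M) (t : ℕ) :
    phi P M (t + 2) - 2 * phi P M (t + 1) + phi P M t ≤ 0 := by
  have hP := h0 (t / 2)
  have hP' := hM (t / 2)
  rcases Nat.even_or_odd' t with ⟨w, rfl | rfl⟩
  · have e1 : 2 * w + 2 = 2 * (w + 1) := by ring
    rw [e1, phi_even, phi_even, phi_odd, aa_succ]
    rw [show 2 * w / 2 = w by omega] at hP hP'
    push_cast
    nlinarith
  · have e1 : 2 * w + 1 + 2 = 2 * (w + 1) + 1 := by ring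
    have e2 : 2 * w + 1 + 1 = 2 * (w + 1) := by ring
    rw [e1, e2, phi_even, phi_odd, phi_odd, aa_succ, bb_succ]
    rw [show (2 * w + 1) / 2 = w by omega] at hP hP'
    push_cast
    nlinarith

end Aux

/-- The sum of the threshold functions. -/
theorem theta_eq (P : ℕ → ℚ) (b0 b1 : Bool) (W ζ : ℕ) (h : ζ < W) :
    ∑ w ∈ Finset.range W, P w *
      (-((1 * b0.toNat + 1 * b1.toNat + 4 * ζ - (4 * w + 1) : ℕ) : ℚ)) =
      - aa P ζ - bb P ζ * (qb b0 + qb b1) - P ζ * qb (b0 && b1) := by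
  have h1 : Finset.range W = Finset.range ζ ∪ Finset.Ico ζ W := by
    rw [Finset.range_eq_Ico, Finset.range_eq_Ico, Finset.Ico_union_Ico_eq_Ico (by omega) (by omega)]
  have h2 : Finset.Ico ζ W = insert ζ (Finset.Ico (ζ + 1) W) := by
    ext i
    simp only [Finset.mem_Ico, Finset.mem_insert]
    omega
  rw [h1, h2, Finset.sum_union, Finset.sum_insert]
  · have h3 : ∑ w ∈ Finset.Ico (ζ + 1) W, P w *
        (-((1 * b0.toNat + 1 * b1.toNat + 4 * ζ - (4 * w + 1) : ℕ) : ℚ)) = 0 := by
      refine Finset.sum_eq_zero fun w hw => ?_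
      rw [Finset.mem_Ico] at hw
      have : (1 * b0.toNat + 1 * b1.toNat + 4 * ζ - (4 * w + 1) : ℕ) = 0 := by
        have := Bool.toNat_le b0
        have := Bool.toNat_le b1
        omega
      rw [this]
      simp
    have h4 : ∑ w ∈ Finset.range ζ, P w *
        (-((1 * b0.toNat + 1 * b1.toNat + 4 * ζ - (4 * w + 1) : ℕ) : ℚ)) =
        - aa P ζ - bb P ζ * (qb b0 + qb b1) := by
      unfold aa bb
      rw [Finset.sum_mul, ← Finset.sum_neg_distrib, ← Finset.sum_sub_distrib]
      refine Finset.sum_congr rfl fun w hw => ?_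
      rw [Finset.mem_range] at hw
      rw [Nat.cast_sub (by omega)]
      cases b0 <;> cases b1 <;> simp [qb] <;> ring
    have h5 : ((1 * b0.toNat + 1 * b1.toNat + 4 * ζ - (4 * ζ + 1) : ℕ) : ℚ) = qb (b0 && b1) := by
      have : 1 * b0.toNat + 1 * b1.toNat + 4 * ζ - (4 * ζ + 1) = (b0 && b1).toNat := by
        cases b0 <;> cases b1 <;> simp only [Bool.toNat_false, Bool.toNat_true, Bool.and_true,
          Bool.and_false, Bool.and_self] <;> omega
      rw [this]
      cases b0 <;> cases b1 <;> simp [qb]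
    rw [h3, h4, h5]
    ring
  · simp
  · rw [Finset.disjoint_left]
    intro i hi
    simp only [Finset.mem_range, Finset.mem_insert, Finset.mem_Ico] at *
    omega

/-- The main expressible function. -/
theorem core (N : ℕ) (P : ℕ → ℚ) (M : ℚ) (h0 : ∀ w, 0 ≤ P w) (hM : ∀ w, 3 * P w ≤ M) :
    Expressible (fun x : Fin (4 + N) → Bool =>
      - P (zeta N (fun p => X x (4 + p))) * qb (X x 0 && X x 1)
        - 2 * M * (zeta N (fun p => X x (4 + p)) : ℚ) ^ 2
        - M * (zeta N (fun p => X x (4 + p)) : ℚ) * (qb (X x 0) + qb (X x 1))) := by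
  have e1 : Expressible (fun x : Fin (4 + N) → Bool => ∑ w ∈ Finset.range (2 ^ N), P w *
      (-((wt (wgt N 1 1 4) x - (4 * w + 1) : ℕ) : ℚ))) :=
    expressible_sum _ _ fun w _ => (expressible_thr _ _).smul (h0 w)
  have e2 : Expressible (fun x : Fin (4 + N) → Bool => phi P M (wt (wgt N 1 0 2) x)) :=
    expressible_concave _ _ (phi_concave P h0 hM)
  have e3 : Expressible (fun x : Fin (4 + N) → Bool => phi P M (wt (wgt N 0 1 2) x)) :=
    expressible_concave _ _ (phi_concave P h0 hM)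
  have e4 : ∀ i : Fin (4 + N), Expressible (fun x : Fin (4 + N) → Bool =>
      if x i = true then M / 4 else 0) := fun i => expressible_var _ _
  refine (((e1.add e2).add e3).add ((e4 ⟨0, by omega⟩).add (e4 ⟨1, by omega⟩))).congr fun x => ?_
  have f0 : x ⟨0, by omega⟩ = X x 0 := by unfold X; rw [dif_pos (by omega)]
  have f1 : x ⟨1, by omega⟩ = X x 1 := by unfold X; rw [dif_pos (by omega)]
  rw [f0, f1]
  simp only [wt_wgt]
  rw [theta_eq P _ _ (2 ^ N) _ (zeta_lt _ _)]
  generalize zeta N (fun p => X x (4 + p)) = ζ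
  generalize X x 0 = b0
  generalize X x 1 = b1
  have g0 : phi P M (1 * b0.toNat + 0 * b1.toNat + 2 * ζ) =
      bb P ζ * qb b0 + aa P ζ / 2 - M / 4 * (qb b0 + 2 * (ζ : ℚ)) ^ 2 := by
    cases b0
    · simp [qb, phi_even]; ring
    · have : 1 * true.toNat + 0 * b1.toNat + 2 * ζ = 2 * ζ + 1 := by simp; ring
      rw [this, phi_odd]
      simp only [qb, if_true]
      ring
  have g1 : phi P M (0 * b0.toNat + 1 * b1.toNat + 2 * ζ) =
      bb P ζ * qb b1 + aa P ζ / 2 - M / 4 * (qb b1 + 2 * (ζ : ℚ)) ^ 2 := by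
    cases b1
    · simp [qb, phi_even]; ring
    · have : 0 * b0.toNat + 1 * true.toNat + 2 * ζ = 2 * ζ + 1 := by simp; ring
      rw [this, phi_odd]
      simp only [qb, if_true]
      ring
  rw [g0, g1]
  cases b0 <;> cases b1 <;> simp [qb] <;> ring

end Pool.Agent.R533.SM
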