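import Pool.Agent.R533.SM.Inst

/-!
# Correctness of the reduction
-/

set_option autoImplicit false

namespace Pool.Agent.R533.SM

open Pool.Agent.NPC Pool.Agent.NPC.H634R2

section Small

/-- The function `g'` with integer values. -/
def gpZ (b0 b1 b2 b3 : Bool) : ℤ :=
  - (b0 && b1).toNat - (b0 && b2).toNat - (b1 && b2).toNat - (b0 && b3).toNat - (b1 && b3).toNat +
    (b0 && b1 && b2).toNat + (b0 && b1 && b3).toNat - (b0 && b1 && b2 && b3).toNat

theorem qb_eq (b : Bool) : qb b = (b.toNat : ℤ) := by cases b <;> simp [qb]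

theorem gp_eq (b0 b1 b2 b3 : Bool) : gp b0 b1 b2 b3 = (gpZ b0 b1 b2 b3 : ℤ) := by
  unfold gp gpZ
  simp only [qb_eq]
  push_cast
  ring

theorem gpZ_sub : ∀ a0 a1 a2 a3 b0 b1 b2 b3 : Bool,
    gpZ (a0 && b0) (a1 && b1) (a2 && b2) (a3 && b3) +
      gpZ (a0 || b0) (a1 || b1) (a2 || b2) (a3 || b3) ≤
      gpZ a0 a1 a2 a3 + gpZ b0 b1 b2 b3 := by decide

theorem gp_sub (a0 a1 a2 a3 b0 b1 b2 b3 : Bool) :
    gp (a0 && b0) (a1 && b1) (a2 && b2) (a3 && b3) +
      gp (a0 || b0) (a1 || b1) (a2 || b2) (a3 || b3) ≤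
      gp a0 a1 a2 a3 + gp b0 b1 b2 b3 := by
  simp only [gp_eq]
  exact_mod_cast gpZ_sub _ _ _ _ _ _ _ _

theorem gp_thr : ∀ b0 b1 b2 b3 : Bool, gpZ b0 b1 b2 b3 - (b0 && b1).toNat =
    -((b0.toNat + b1.toNat + b2.toNat - 1 : ℕ) : ℤ) + -((b0.toNat + b1.toNat + b3.toNat - 1 : ℕ) : ℤ)
      + -((b0.toNat + b1.toNat + b2.toNat + b3.toNat - 3 : ℕ) : ℤ) := by decide

end Small

variable {N : ℕ}

theorem X_inf {n : ℕ} (x y : Fin n → Bool) (i : ℕ) : X (x ⊓ y) i = (X x i && X y i) := by
  unfold X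
  split_ifs
  · rfl
  · rfl

theorem X_sup {n : ℕ} (x y : Fin n → Bool) (i : ℕ) : X (x ⊔ y) i = (X x i || X y i) := by
  unfold X
  split_ifs
  · rfl
  · rfl

/-- Weights of the first four variables. -/
def wg4 (N a b c d : ℕ) (v : Fin (4 + N)) : ℕ :=
  if v.val = 0 then a else if v.val = 1 then b else if v.val = 2 then c else
    if v.val = 3 then d else 0

theorem wt_wg4 (N a b c d : ℕ) (x : Fin (4 + N) → Bool) :
    wt (wg4 N a b c d) x =
      a * (X x 0).toNat + b * (X x 1).toNat + c * (X x 2).toNat + d * (X x 3).toNat := by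
  unfold wt
  rw [Fin.sum_univ_add, Fin.sum_univ_four]
  have h0 : ∀ i : Fin 4, x (Fin.castAdd N i) = X x i := by
    intro i
    unfold X
    rw [dif_pos (by omega)]
    rfl
  have e0 : wg4 N a b c d (Fin.castAdd N 0) = a := by simp [wg4]
  have e1 : wg4 N a b c d (Fin.castAdd N 1) = b := by simp [wg4]
  have e2 : wg4 N a b c d (Fin.castAdd N 2) = c := by simp [wg4]
  have e3 : wg4 N a b c d (Fin.castAdd N 3) = d := by simp [wg4]
  have h5 : ∑ i : Fin N, (if x (Fin.natAdd 4 i) = true then wg4 N a b c d (Fin.natAdd 4 i) else 0)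
      = 0 := by
    refine Finset.sum_eq_zero fun i _ => ?_
    have : wg4 N a b c d (Fin.natAdd 4 i) = 0 := by
      have hv : (Fin.natAdd 4 i).val = 4 + i := rfl
      unfold wg4
      rw [hv, if_neg (by omega), if_neg (by omega), if_neg (by omega), if_neg (by omega)]
    rw [this]
    simp
  have e4 : ∀ (b : Bool) (a : ℕ), (if b = true then a else 0) = a * b.toNat := by
    intro b a; cases b <;> simp
  rw [h0, h0, h0, h0, e0, e1, e2, e3, h5, e4, e4, e4, e4]
  rfl

/-- The expressible part of the first four variables. -/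
theorem expr_g : Expressible (fun x : Fin (4 + N) → Bool =>
    gp (X x 0) (X x 1) (X x 2) (X x 3) - qb (X x 0 && X x 1)) := by
  refine (((expressible_thr (wg4 N 1 1 1 0) 1).add (expressible_thr (wg4 N 1 1 0 1) 1)).add
    (expressible_thr (wg4 N 1 1 1 1) 3)).congr fun x => ?_
  simp only [wt_wg4]
  have := gp_thr (X x 0) (X x 1) (X x 2) (X x 3)
  rw [gp_eq, qb_eq]
  have h2 : ((gpZ (X x 0) (X x 1) (X x 2) (X x 3) - (X x 0 && X x 1).toNat : ℤ) : ℚ) =
    ((-(((X x 0).toNat + (X x 1).toNat + (X x 2).toNat - 1 : ℕ) : ℤ) +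
      -(((X x 0).toNat + (X x 1).toNat + (X x 3).toNat - 1 : ℕ) : ℤ)
      + -(((X x 0).toNat + (X x 1).toNat + (X x 2).toNat + (X x 3).toNat - 3 : ℕ) : ℤ) : ℤ) : ℚ) := by
    rw [this]
  push_cast at h2 ⊢
  rw [h2]
  simp only [one_mul, zero_mul, add_zero]

theorem expr_lin (M : ℚ) : Expressible (fun x : Fin (4 + N) → Bool =>
    2 * M * ∑ p ∈ Finset.range N, (2 ^ p) ^ 2 * qb (X x (4 + p))) := by
  refine (expressible_sum (Finset.range N) (fun p x => 2 * M * ((2 ^ p) ^ 2 * qb (X x (4 + p))))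
    ?_).congr fun x => by rw [Finset.mul_sum]
  intro p hp
  rw [Finset.mem_range] at hp
  refine (expressible_var (2 * M * ((2 ^ p) ^ 2)) (⟨4 + p, by omega⟩ : Fin (4 + N))).congr fun x => ?_
  have : X x (4 + p) = x ⟨4 + p, by omega⟩ := by
    unfold X
    rw [dif_pos (by omega)]
  rw [this]
  unfold qb
  split_ifs <;> ring

/-! ### The quadratic function -/

theorem Qf_le (E : List (ℕ × ℕ)) (z : ℕ → Bool) : Qf N E z ≤ N := by
  unfold Qf
  have h1 : ∑ p ∈ Finset.range N, qb (z p) ≤ N := by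
    calc _ ≤ ∑ p ∈ Finset.range N, (1 : ℚ) := Finset.sum_le_sum fun p _ => by
            unfold qb; split_ifs <;> norm_num
      _ = N := by simp
  have h2 : 0 ≤ ((nad N E).map fun e => qb (z e.1 && z e.2)).sum := by
    refine List.sum_nonneg ?_
    intro a ha
    rw [List.mem_map] at ha
    obtain ⟨e, _, rfl⟩ := ha
    unfold qb; split_ifs <;> norm_num
  have h3 : (0 : ℚ) ≤ N := Nat.cast_nonneg _
  nlinarith

theorem le_Qf (E : List (ℕ × ℕ)) (z : ℕ → Bool) : -((N : ℚ) ^ 3) ≤ Qf N E z := by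
  unfold Qf
  have h1 : 0 ≤ ∑ p ∈ Finset.range N, qb (z p) :=
    Finset.sum_nonneg fun p _ => by unfold qb; split_ifs <;> norm_num
  have h2 : ((nad N E).map fun e => qb (z e.1 && z e.2)).sum ≤ (N : ℚ) ^ 2 := by
    have h3 : ((nad N E).map fun e => qb (z e.1 && z e.2)).sum ≤ (nad N E).length := by
      generalize nad N E = l
      induction l with
      | nil => simp
      | cons e l ih =>
        have : qb (z e.1 && z e.2) ≤ 1 := by unfold qb; split_ifs <;> norm_num
        simp only [List.map_cons, List.sum_cons, List.length_cons]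
        push_cast
        linarith
    refine h3.trans ?_
    have h4 : (nad N E).length ≤ N ^ 2 := (List.length_filter_le _ _).trans (length_prs N)
    exact_mod_cast h4
  have h3 : (0 : ℚ) ≤ N := Nat.cast_nonneg _
  nlinarith

/-- The big number. -/
def Mb (N : ℕ) : ℕ := 4 * (N + 1) ^ 3

theorem Mb_ge {P : ℚ} (h : P ≤ N + (N : ℚ) ^ 3) : 3 * P ≤ Mb N := by
  unfold Mb
  push_cast
  have h3 : (0 : ℚ) ≤ N := Nat.cast_nonneg _
  nlinarith [pow_nonneg h3 2, pow_nonneg h3 3]

theorem X_zeta (x : Fin (4 + N) → Bool) (E : List (ℕ × ℕ)) :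
    Qf N E (zeta N fun p => X x (4 + p)).testBit = Qf N E fun p => X x (4 + p) :=
  Qf_congr fun p hp => testBit_zeta N (fun p => X x (4 + p)) p hp

/-- The polynomial is submodular. -/
theorem submodular_coef (c : ℕ) (E : List (ℕ × ℕ)) :
    Submodular (fn (4 + N) (coef N c (Mb N) E)) := by
  have h1 : Submodular (fun x : Fin (4 + N) → Bool => c * gp (X x 0) (X x 1) (X x 2) (X x 3)) := by
    intro x y
    simp only [X_inf, X_sup]
    have h := gp_sub (X x 0) (X x 1) (X x 2) (X x 3) (X y 0) (X y 1) (X y 2) (X y 3)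
    have hc : (0 : ℚ) ≤ c := Nat.cast_nonneg _
    nlinarith
  have h2 := (core N (fun w => (N : ℚ) - Qf N E w.testBit) (Mb N)
    (fun w => by linarith [Qf_le (N := N) E w.testBit])
    (fun w => Mb_ge (by linarith [le_Qf (N := N) E w.testBit]))).submodular
  have h3 := (expr_lin (N := N) (Mb N)).submodular
  have h4 := (h1.add h2).add h3
  have h5 : fn (4 + N) (coef N c (Mb N) E) = fun x : Fin (4 + N) → Bool =>
      c * gp (X x 0) (X x 1) (X x 2) (X x 3) +
      (- ((N : ℚ) - Qf N E (zeta N (fun p => X x (4 + p))).testBit) * qb (X x 0 && X x 1)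
        - 2 * (Mb N : ℕ) * (zeta N (fun p => X x (4 + p)) : ℚ) ^ 2
        - (Mb N : ℕ) * (zeta N (fun p => X x (4 + p)) : ℚ) * (qb (X x 0) + qb (X x 1))) +
      2 * (Mb N : ℕ) * ∑ p ∈ Finset.range N, (2 ^ p) ^ 2 * qb (X x (4 + p)) := by
    funext x
    unfold coef
    rw [fn_eq_ev, ev_coefZ, X_zeta]
  rw [h5]
  exact h4

/-- If the quadratic function is small, the polynomial is expressible. -/
theorem expressible_coef {k : ℕ} (hk : k ≤ N) (E : List (ℕ × ℕ))
    (hQ : ∀ z, Qf N E z ≤ (k : ℚ) - 1) :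
    Expressible (fn (4 + N) (coef N (N + 1 - k) (Mb N) E)) := by
  have h1 := (expr_g (N := N)).smul (c := ((N + 1 - k : ℕ) : ℚ)) (Nat.cast_nonneg _)
  have h2 := core N (fun w => (k : ℚ) - 1 - Qf N E w.testBit) (Mb N)
    (fun w => by linarith [hQ w.testBit])
    (fun w => Mb_ge (by
      have : (k : ℚ) ≤ N := by exact_mod_cast hk
      linarith [le_Qf (N := N) E w.testBit]))
  have h3 := expr_lin (N := N) (Mb N)
  refine ((h1.add h2).add h3).congr fun x => ?_
  unfold coef
  rw [fn_eq_ev, ev_coefZ, X_zeta, Nat.cast_sub (by omega)]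
  push_cast
  ring

theorem X_F {n : ℕ} (p : Fin 5 → Fin n → Bool) (j : Fin 5) {i : ℕ} (h : i < n) :
    X (fun v => F (fun j => p j v) j) i = F (fun j => X (p j) i) j := by
  unfold X
  simp only [dif_pos h]

/-- The first four coordinates of the five points. -/
def pt (i : Fin 4) (j : Fin 5) : Bool :=
  (![![true, true, false, true, false], ![true, false, true, false, true],
      ![false, true, true, false, false], ![false, false, false, true, true]] :
        Fin 4 → Fin 5 → Bool) i j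

theorem exists_points (z : ℕ → Bool) : ∃ p : Fin 5 → Fin (4 + N) → Bool,
    (∀ (j : Fin 5) (i : Fin 4), X (p j) i = pt i j) ∧ ∀ j, ∀ i < N, X (p j) (4 + i) = z i := by
  refine ⟨fun j v => Fin.addCases (m := 4) (n := N) (motive := fun _ => Bool) (fun i => pt i j)
    (fun i => z i) v, fun j i => ?_, fun j i hi => ?_⟩
  · unfold X
    rw [dif_pos (by omega)]
    exact Fin.addCases_left (motive := fun _ => Bool) (left := fun i => pt i j)
      (right := fun i : Fin N => z i) i
  · unfold X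
    rw [dif_pos (by omega)]
    exact Fin.addCases_right (motive := fun _ => Bool) (left := fun i => pt i j)
      (right := fun i : Fin N => z i) ⟨i, hi⟩

/-- The value of the polynomial for fixed `z`. -/
theorem fn_val {c : ℕ} (E : List (ℕ × ℕ)) (z : ℕ → Bool) (x : Fin (4 + N) → Bool)
    (hx : ∀ i < N, X x (4 + i) = z i) :
    fn (4 + N) (coef N c (Mb N) E) x =
        (c : ℚ) * gp (X x 0) (X x 1) (X x 2) (X x 3) -
          ((N : ℚ) - Qf N E z) * qb (X x 0 && X x 1) - Mb N * zeta N z * (qb (X x 0) + qb (X x 1))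
          + (2 * (Mb N : ℚ) * ∑ p ∈ Finset.range N, (2 ^ p) ^ 2 * qb (z p) -
            2 * Mb N * (zeta N z : ℚ) ^ 2) := by
  unfold coef
  rw [fn_eq_ev, ev_coefZ]
  have e1 : Qf N E (fun p => X x (4 + p)) = Qf N E z := Qf_congr hx
  have e2 : zeta N (fun p => X x (4 + p)) = zeta N z := by
    unfold zeta
    exact Finset.sum_congr rfl fun p hp => by simp only [hx p (Finset.mem_range.1 hp)]
  have e3 : ∑ p ∈ Finset.range N, ((2 : ℚ) ^ p) ^ 2 * qb (X x (4 + p)) =
      ∑ p ∈ Finset.range N, (2 ^ p) ^ 2 * qb (z p) :=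
    Finset.sum_congr rfl fun p hp => by rw [hx p (Finset.mem_range.1 hp)]
  rw [e1, e2, e3]
  ring

/-- If the quadratic function is large somewhere, the polynomial is not expressible. -/
theorem not_expressible_coef {k : ℕ} (hk : k ≤ N) (E : List (ℕ × ℕ)) (z : ℕ → Bool)
    (hQ : (k : ℚ) ≤ Qf N E z) :
    ¬ Expressible (fn (4 + N) (coef N (N + 1 - k) (Mb N) E)) := by
  intro h
  obtain ⟨p, hX, hXz⟩ := exists_points (N := N) z
  have h0 := h.ineq p
  have hFX : ∀ (j : Fin 5) (i : Fin 4), X (fun v => F (fun j => p j v) j) i = F (pt i) j := by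
    intro j i
    rw [X_F p j (by omega)]
    congr 1
    funext j
    exact hX j i
  have hFXz : ∀ (j : Fin 5), ∀ i < N, X (fun v => F (fun j => p j v) j) (4 + i) = z i := by
    intro j i hi
    rw [X_F p j (by omega)]
    have h2 : (fun j => X (p j) (4 + i)) = fun _ => z i := funext fun j => hXz j i hi
    rw [h2, F_const]
  have g1 := fun j => fn_val (c := N + 1 - k) E z _ (hXz j)
  have g2 := fun j => fn_val (c := N + 1 - k) E z _ (hFXz j)
  rw [Finset.sum_congr rfl fun j _ => g1 j, Finset.sum_congr rfl fun j _ => g2 j] at h0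
  have hX0 : ∀ j, X (p j) 0 = pt 0 j := fun j => hX j 0
  have hX1 : ∀ j, X (p j) 1 = pt 1 j := fun j => hX j 1
  have hX2 : ∀ j, X (p j) 2 = pt 2 j := fun j => hX j 2
  have hX3 : ∀ j, X (p j) 3 = pt 3 j := fun j => hX j 3
  have hF0 : ∀ j, X (fun v => F (fun j => p j v) j) 0 = F (pt 0) j := fun j => hFX j 0
  have hF1 : ∀ j, X (fun v => F (fun j => p j v) j) 1 = F (pt 1) j := fun j => hFX j 1
  have hF2 : ∀ j, X (fun v => F (fun j => p j v) j) 2 = F (pt 2) j := fun j => hFX j 2
  have hF3 : ∀ j, X (fun v => F (fun j => p j v) j) 3 = F (pt 3) j := fun j => hFX j 3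
  simp only [hX0, hX1, hX2, hX3, hF0, hF1, hF2, hF3] at h0
  have f0 : F (pt 0) = ![false, true, true, true, false] := by decide
  have f1 : F (pt 1) = ![false, true, true, false, true] := by decide
  have f2 : F (pt 2) = ![true, true, false, false, false] := by decide
  have f3 : F (pt 3) = ![true, false, true, false, false] := by decide
  rw [f0, f1, f2, f3] at h0
  simp only [Fin.sum_univ_five] at h0
  generalize (2 * (Mb N : ℚ) * ∑ p ∈ Finset.range N, (2 ^ p) ^ 2 * qb (z p) -
            2 * Mb N * (zeta N z : ℚ) ^ 2) = t at h0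
  generalize (Mb N : ℚ) * zeta N z = s at h0
  have hk' : (k : ℚ) ≤ N := by exact_mod_cast hk
  have hc : ((N + 1 - k : ℕ) : ℚ) = (N : ℚ) + 1 - k := by
    rw [Nat.cast_sub (by omega)]
    push_cast
    ring
  rw [hc] at h0
  simp [pt, gp, qb] at h0
  linarith

end Pool.Agent.R533.SM
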