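import Mathlib

/-!
# Submodular polynomials of degree 4 and binary submodular functions: definitions
-/

set_option autoImplicit false

namespace Pool.Agent.R533.SM

/-- The value of the monomial with the set of indices `I` at the point `x`. -/
def mon {n : ℕ} (x : Fin n → Bool) (I : List ℕ) : Bool :=
  I.all fun i => if h : i < n then x ⟨i, h⟩ else false

/-- The pseudo-Boolean function in `n` variables with the list of coefficients `c`: the pair
`(I, a)` stands for the monomial `a * ∏ i ∈ I, x i`. -/
def fn (n : ℕ) (c : List (List ℕ × ℚ)) (x : Fin n → Bool) : ℚ :=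
  (c.map fun m => if mon x m.1 = true then m.2 else 0).sum

/-- `I = (n, c)` is a correct description of a polynomial of degree `4` in `n` variables by the
list `c` of its nonzero coefficients: the index sets are increasing lists of numbers less than
`n`, of length at most `4`, there are no repetitions, and length `4` occurs. -/
def IsDeg4 (I : ℕ × List (List ℕ × ℚ)) : Prop :=
  (I.2.map Prod.fst).Nodup ∧
    (∀ m ∈ I.2, m.1.Pairwise (· < ·) ∧ (∀ i ∈ m.1, i < I.1) ∧ m.1.length ≤ 4 ∧ m.2 ≠ 0) ∧
    ∃ m ∈ I.2, m.1.length = 4

/-- Submodularity (`⊓` and `⊔` are the coordinatewise minimum and maximum). -/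
def Submodular {V : Type} (f : (V → Bool) → ℚ) : Prop :=
  ∀ x y : V → Bool, f (x ⊓ y) + f (x ⊔ y) ≤ f x + f y

/-- Submodular functions of two Boolean variables. -/
def BinSub (g : Bool → Bool → ℚ) : Prop :=
  g false false + g true true ≤ g false true + g true false

/-- The sum of the functions `g.2`, applied to the pairs of variables `g.1` (from the variables `x`
and the auxiliary variables `y`), for `g` in the list `G`. -/
def total {V W : Type} (G : List (((V ⊕ W) × (V ⊕ W)) × (Bool → Bool → ℚ))) (x : V → Bool)
    (y : W → Bool) : ℚ :=
  (G.map fun g => g.2 (Sum.elim x y g.1.1) (Sum.elim x y g.1.2)).sum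

/-- `f` is expressible by binary submodular functions: `f x` is the minimum, over all values of
`m` auxiliary variables `y`, of a sum of finitely many binary submodular functions of pairs of
variables. -/
def Expressible {V : Type} (f : (V → Bool) → ℚ) : Prop :=
  ∃ (m : ℕ) (G : List (((V ⊕ Fin m) × (V ⊕ Fin m)) × (Bool → Bool → ℚ))),
    (∀ g ∈ G, BinSub g.2) ∧ ∀ x : V → Bool, IsLeast (Set.range (total G x)) (f x)

end Pool.Agent.R533.SM
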