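import Pool.Agent.R533.SM.Defs

/-!
# Closure properties of expressible functions
-/

set_option autoImplicit false

namespace Pool.Agent.R533.SM

/-- Expressibility with auxiliary variables indexed by a type. -/
def ExprW {V : Type} (W : Type) (f : (V → Bool) → ℚ) : Prop :=
  ∃ G : List (((V ⊕ W) × (V ⊕ W)) × (Bool → Bool → ℚ)),
    (∀ g ∈ G, BinSub g.2) ∧ ∀ x : V → Bool, IsLeast (Set.range (total G x)) (f x)

section Closure

variable {V W W' : Type} {f f' : (V → Bool) → ℚ}

theorem ExprW.congr (h : ExprW W f) (h' : ∀ x, f x = f' x) : ExprW W f' := by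
  obtain ⟨G, h1, h2⟩ := h
  exact ⟨G, h1, fun x => h' x ▸ h2 x⟩

theorem total_map {W W' : Type} (ρ : W → W') (G : List (((V ⊕ W) × (V ⊕ W)) × (Bool → Bool → ℚ)))
    (x : V → Bool) (y : W' → Bool) :
    total (G.map fun g => ((Sum.map id ρ g.1.1, Sum.map id ρ g.1.2), g.2)) x y =
      total G x (fun w => y (ρ w)) := by
  unfold total
  rw [List.map_map]
  congr 1
  apply List.map_congr_left
  intro g _
  have key : ∀ a : V ⊕ W, Sum.elim x y (Sum.map id ρ a) = Sum.elim x (fun w => y (ρ w)) a := by
    intro a; cases a <;> rfl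
  simp only [Function.comp_apply, key]

theorem ExprW.equiv (e : W ≃ W') (h : ExprW W f) : ExprW W' f := by
  obtain ⟨G, h1, h2⟩ := h
  refine ⟨G.map fun g => ((Sum.map id e g.1.1, Sum.map id e g.1.2), g.2), ?_, fun x => ?_⟩
  · intro g hg
    rw [List.mem_map] at hg
    obtain ⟨g', hg', rfl⟩ := hg
    exact h1 g' hg'
  · have : Set.range (total (G.map fun g => ((Sum.map id e g.1.1, Sum.map id e g.1.2), g.2)) x) =
        Set.range (total G x) := by
      ext t
      simp only [Set.mem_range, total_map]
      constructor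
      · rintro ⟨y, rfl⟩
        exact ⟨fun w => y (e w), rfl⟩
      · rintro ⟨y, rfl⟩
        refine ⟨fun w => y (e.symm w), ?_⟩
        congr 1
        funext w
        simp
    rw [this]
    exact h2 x

theorem total_append (G G' : List (((V ⊕ W) × (V ⊕ W)) × (Bool → Bool → ℚ))) (x : V → Bool)
    (y : W → Bool) : total (G ++ G') x y = total G x y + total G' x y := by
  simp [total]

theorem ExprW.add (h : ExprW W f) (h' : ExprW W' f') : ExprW (W ⊕ W') (fun x => f x + f' x) := by
  obtain ⟨G, h1, h2⟩ := h
  obtain ⟨G', h1', h2'⟩ := h'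
  refine ⟨(G.map fun g => ((Sum.map id Sum.inl g.1.1, Sum.map id Sum.inl g.1.2), g.2)) ++
    (G'.map fun g => ((Sum.map id Sum.inr g.1.1, Sum.map id Sum.inr g.1.2), g.2)), ?_, fun x => ?_⟩
  · intro g hg
    rw [List.mem_append, List.mem_map, List.mem_map] at hg
    rcases hg with ⟨g', hg', rfl⟩ | ⟨g', hg', rfl⟩
    · exact h1 g' hg'
    · exact h1' g' hg'
  · obtain ⟨⟨y, hy⟩, hm⟩ := h2 x
    obtain ⟨⟨y', hy'⟩, hm'⟩ := h2' x
    constructor
    · refine ⟨Sum.elim y y', ?_⟩
      simp only [total_append, total_map, Sum.elim_inl, Sum.elim_inr, hy, hy']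
    · rintro _ ⟨u, rfl⟩
      simp only [total_append, total_map]
      exact add_le_add (hm ⟨_, rfl⟩) (hm' ⟨_, rfl⟩)

theorem ExprW.smul {c : ℚ} (hc : 0 ≤ c) (h : ExprW W f) : ExprW W (fun x => c * f x) := by
  obtain ⟨G, h1, h2⟩ := h
  have key : ∀ x y, total (G.map fun g => (g.1, fun a b => c * g.2 a b)) x y =
      c * total G x y := by
    intro x y
    unfold total
    rw [List.map_map, ← List.sum_map_mul_left]
    rfl
  refine ⟨G.map fun g => (g.1, fun a b => c * g.2 a b), ?_, fun x => ?_⟩
  · intro g hg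
    rw [List.mem_map] at hg
    obtain ⟨g', hg', rfl⟩ := hg
    have := h1 g' hg'
    unfold BinSub at *
    simp only
    nlinarith
  · obtain ⟨⟨y, hy⟩, hm⟩ := h2 x
    constructor
    · exact ⟨y, by rw [key, hy]⟩
    · rintro _ ⟨u, rfl⟩
      rw [key]
      exact mul_le_mul_of_nonneg_left (hm ⟨_, rfl⟩) hc

end Closure

section Basic

variable {V : Type} {f f' : (V → Bool) → ℚ}

theorem Expressible.congr (h : Expressible f) (h' : ∀ x, f x = f' x) : Expressible f' := by
  obtain ⟨m, h⟩ := h
  exact ⟨m, ExprW.congr h h'⟩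

theorem ExprW.expressible {W : Type} [Fintype W] (h : ExprW W f) : Expressible f :=
  ⟨Fintype.card W, ExprW.equiv (Fintype.equivFin W) h⟩

theorem Expressible.add (h : Expressible f) (h' : Expressible f') :
    Expressible (fun x => f x + f' x) := by
  obtain ⟨m, h⟩ := h
  obtain ⟨m', h'⟩ := h'
  exact (ExprW.add h h').expressible

theorem Expressible.smul {c : ℚ} (hc : 0 ≤ c) (h : Expressible f) :
    Expressible (fun x => c * f x) := by
  obtain ⟨m, h⟩ := h
  exact ⟨m, ExprW.smul hc h⟩

/-- A function of two variables. -/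
theorem expressible_binary (u v : V) (g : Bool → Bool → ℚ) (hg : BinSub g) :
    Expressible (fun x => g (x u) (x v)) := by
  refine ExprW.expressible (W := Empty) ⟨[((Sum.inl u, Sum.inl v), g)], by simpa using hg,
    fun x => ?_⟩
  have : ∀ y, total [(((Sum.inl u, Sum.inl v) : (V ⊕ Empty) × (V ⊕ Empty)), g)] x y =
      g (x u) (x v) := fun y => by simp [total]
  constructor
  · exact ⟨fun e => e.elim, this _⟩
  · rintro _ ⟨y, rfl⟩
    rw [this]

theorem expressible_const (c : ℚ) : Expressible (fun _ : V → Bool => c) := by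
  refine ExprW.expressible (W := Unit) ⟨[((Sum.inr (), Sum.inr ()), fun _ _ => c)],
    by simp [BinSub], fun x => ?_⟩
  have : ∀ y, total [(((Sum.inr (), Sum.inr ()) : (V ⊕ Unit) × (V ⊕ Unit)), fun _ _ => c)] x y =
      c := fun y => by simp [total]
  constructor
  · exact ⟨fun _ => false, this _⟩
  · rintro _ ⟨y, rfl⟩
    rw [this]

theorem expressible_var (c : ℚ) (v : V) :
    Expressible (fun x : V → Bool => if x v = true then c else 0) := by
  refine (expressible_binary v v (fun a _ => if a = true then c else 0) ?_).congr fun x => rfl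
  simp [BinSub]

theorem expressible_and {c : ℚ} (hc : c ≤ 0) (u v : V) :
    Expressible (fun x : V → Bool => if x u = true ∧ x v = true then c else 0) := by
  refine (expressible_binary u v (fun a b => if a = true ∧ b = true then c else 0) ?_).congr
    fun x => rfl
  simpa [BinSub] using hc

theorem expressible_sum {ι : Type} (s : Finset ι) (F : ι → (V → Bool) → ℚ)
    (h : ∀ i ∈ s, Expressible (F i)) : Expressible (fun x => ∑ i ∈ s, F i x) := by
  classical
  induction s using Finset.induction_on with
  | empty => simpa using expressible_const (V := V) 0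
  | insert i s hi ih =>
    refine ((h i (Finset.mem_insert_self _ _)).add
      (ih fun j hj => h j (Finset.mem_insert_of_mem hj))).congr fun x => ?_
    rw [Finset.sum_insert hi]

/-- The weight of the set of variables which are true. -/
def wt [Fintype V] (ω : V → ℕ) (x : V → Bool) : ℕ := ∑ v, if x v = true then ω v else 0

/-- Threshold functions. -/
theorem expressible_thr [Fintype V] (ω : V → ℕ) (t : ℕ) :
    Expressible (fun x : V → Bool => -((wt ω x - t : ℕ) : ℚ)) := by
  classical
  let G : List (((V ⊕ Unit) × (V ⊕ Unit)) × (Bool → Bool → ℚ)) :=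
    ((Sum.inr (), Sum.inr ()), fun a _ => if a = true then (t : ℚ) else 0) ::
      (Finset.univ.toList.map fun v => ((Sum.inr (), Sum.inl v),
        fun a b => if a = true ∧ b = true then -(ω v : ℚ) else 0))
  refine ExprW.expressible (W := Unit) ⟨G, ?_, fun x => ?_⟩
  · intro g hg
    simp only [G, List.mem_cons, List.mem_map, Finset.mem_toList, Finset.mem_univ, true_and] at hg
    rcases hg with rfl | ⟨v, rfl⟩
    · simp [BinSub]
    · simp [BinSub]
  · have key : ∀ y : Unit → Bool, total G x y =
        if y () = true then (t : ℚ) - (wt ω x : ℚ) else 0 := by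
      intro y
      simp only [G, total, List.map_cons, List.sum_cons, Sum.elim_inr, List.map_map]
      have h1 : (List.map ((fun g : ((V ⊕ Unit) × (V ⊕ Unit)) × (Bool → Bool → ℚ) =>
          g.2 (Sum.elim x y g.1.1) (Sum.elim x y g.1.2)) ∘ fun v =>
            ((Sum.inr (), Sum.inl v), fun a b => if a = true ∧ b = true then -(ω v : ℚ) else 0))
            Finset.univ.toList).sum = if y () = true then -(wt ω x : ℚ) else 0 := by
        rw [Finset.sum_map_toList]
        show ∑ v : V, (if y () = true ∧ x v = true then -(ω v : ℚ) else 0) = _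
        by_cases hy : y () = true
        · simp only [hy, true_and, if_true]
          unfold wt
          push_cast
          rw [← Finset.sum_neg_distrib]
          refine Finset.sum_congr rfl fun v _ => ?_
          split_ifs <;> simp
        · simp [hy]
      rw [h1]
      by_cases hy : y () = true
      · simp [hy]; ring
      · simp [hy]
    constructor
    · rcases le_total t (wt ω x) with h | h
      · refine ⟨fun _ => true, ?_⟩
        rw [key]
        simp [Nat.cast_sub h]
      · refine ⟨fun _ => false, ?_⟩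
        rw [key]
        simp [Nat.sub_eq_zero_of_le h]
    · rintro _ ⟨y, rfl⟩
      rw [key]
      have h1 : (0 : ℚ) ≤ ((wt ω x - t : ℕ) : ℚ) := Nat.cast_nonneg _
      show -((wt ω x - t : ℕ) : ℚ) ≤ _
      split_ifs
      · rcases le_total t (wt ω x) with h | h
        · rw [Nat.cast_sub h]; linarith
        · rw [Nat.sub_eq_zero_of_le h]
          simp
          exact h
      · linarith

/-- A function on the natural numbers as a sum of truncated linear functions. -/
theorem expand (φ : ℕ → ℚ) (T : ℕ) : ∀ U ≤ T + 1, φ U = φ 0 + (φ 1 - φ 0) * U +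
    ∑ t ∈ Finset.range T, (φ (t + 2) - 2 * φ (t + 1) + φ t) * ((U - (t + 1) : ℕ) : ℚ) := by
  intro U
  induction U with
  | zero => intro _; simp
  | succ U ih =>
    intro hU
    have h1 := ih (by omega)
    have h2 : ∑ t ∈ Finset.range T, (φ (t + 2) - 2 * φ (t + 1) + φ t) *
        ((U + 1 - (t + 1) : ℕ) : ℚ) = ∑ t ∈ Finset.range T,
        (φ (t + 2) - 2 * φ (t + 1) + φ t) * ((U - (t + 1) : ℕ) : ℚ) +
        ∑ t ∈ Finset.range U, (φ (t + 2) - 2 * φ (t + 1) + φ t) := by
      have h3 : ∑ t ∈ Finset.range U, (φ (t + 2) - 2 * φ (t + 1) + φ t) =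
          ∑ t ∈ Finset.range T, if t < U then (φ (t + 2) - 2 * φ (t + 1) + φ t) else 0 := by
        rw [← Finset.sum_filter]
        congr 1
        ext t
        simp only [Finset.mem_range, Finset.mem_filter]
        omega
      rw [h3, ← Finset.sum_add_distrib]
      refine Finset.sum_congr rfl fun t _ => ?_
      split_ifs with h
      · have : (U + 1 - (t + 1) : ℕ) = (U - (t + 1)) + 1 := by omega
        rw [this]; push_cast; ring
      · have e1 : (U + 1 - (t + 1) : ℕ) = 0 := by omega
        have e2 : (U - (t + 1) : ℕ) = 0 := by omega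
        rw [e1, e2]; simp
    have h4 : ∀ U : ℕ, ∑ t ∈ Finset.range U, (φ (t + 2) - 2 * φ (t + 1) + φ t) =
        (φ (U + 1) - φ U) - (φ 1 - φ 0) := by
      intro U
      induction U with
      | zero => simp
      | succ U ih => rw [Finset.sum_range_succ, ih]; ring
    rw [h2, h4]
    push_cast
    linarith

/-- Concave functions of the weight. -/
theorem expressible_concave [Fintype V] (ω : V → ℕ) (φ : ℕ → ℚ)
    (hφ : ∀ t, φ (t + 2) - 2 * φ (t + 1) + φ t ≤ 0) :
    Expressible (fun x : V → Bool => φ (wt ω x)) := by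
  let T : ℕ := ∑ v, ω v
  have hT : ∀ x : V → Bool, wt ω x ≤ T + 1 := by
    intro x
    refine (Finset.sum_le_sum fun v _ => ?_).trans (Nat.le_succ _)
    split_ifs
    · exact le_rfl
    · exact Nat.zero_le _
  have h1 : Expressible (fun x : V → Bool => φ 0 + (φ 1 - φ 0) * (wt ω x : ℚ)) := by
    refine ((expressible_const (φ 0)).add (expressible_sum Finset.univ
      (fun v x => if x v = true then (φ 1 - φ 0) * (ω v : ℚ) else 0)
      (fun v _ => expressible_var _ v))).congr fun x => ?_
    congr 1
    unfold wt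
    push_cast
    rw [Finset.mul_sum]
    refine Finset.sum_congr rfl fun v _ => ?_
    split_ifs <;> simp
  have h2 : Expressible (fun x : V → Bool => ∑ t ∈ Finset.range T,
      (-(φ (t + 2) - 2 * φ (t + 1) + φ t)) * (-((wt ω x - (t + 1) : ℕ) : ℚ))) :=
    expressible_sum _ _ fun t _ => (expressible_thr ω (t + 1)).smul (by linarith [hφ t])
  refine (h1.add h2).congr fun x => ?_
  rw [expand φ T _ (hT x)]
  congr 1
  refine Finset.sum_congr rfl fun t _ => ?_
  ring

/-- Expressible functions are submodular. -/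
theorem Expressible.submodular (h : Expressible f) : Submodular f := by
  obtain ⟨m, G, h1, h2⟩ := h
  intro x x'
  obtain ⟨⟨y, hy⟩, -⟩ := h2 x
  obtain ⟨⟨y', hy'⟩, -⟩ := h2 x'
  have e1 : f (x ⊓ x') ≤ total G (x ⊓ x') (y ⊓ y') := (h2 _).2 ⟨_, rfl⟩
  have e2 : f (x ⊔ x') ≤ total G (x ⊔ x') (y ⊔ y') := (h2 _).2 ⟨_, rfl⟩
  have key : ∀ G : List (((V ⊕ Fin m) × (V ⊕ Fin m)) × (Bool → Bool → ℚ)),
      (∀ g ∈ G, BinSub g.2) → total G (x ⊓ x') (y ⊓ y') + total G (x ⊔ x') (y ⊔ y') ≤
        total G x y + total G x' y' := by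
    intro G
    induction G with
    | nil => intro _; simp [total]
    | cons g G ih =>
      intro hG
      have i1 := ih fun g hg => hG g (List.mem_cons_of_mem _ hg)
      have i2 := hG g List.mem_cons_self
      have hinf : ∀ a : V ⊕ Fin m, Sum.elim (x ⊓ x') (y ⊓ y') a =
          (Sum.elim x y a && Sum.elim x' y' a) := by intro a; cases a <;> rfl
      have hsup : ∀ a : V ⊕ Fin m, Sum.elim (x ⊔ x') (y ⊔ y') a =
          (Sum.elim x y a || Sum.elim x' y' a) := by intro a; cases a <;> rfl
      have i3 : g.2 (Sum.elim (x ⊓ x') (y ⊓ y') g.1.1) (Sum.elim (x ⊓ x') (y ⊓ y') g.1.2) +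
          g.2 (Sum.elim (x ⊔ x') (y ⊔ y') g.1.1) (Sum.elim (x ⊔ x') (y ⊔ y') g.1.2) ≤
          g.2 (Sum.elim x y g.1.1) (Sum.elim x y g.1.2) +
          g.2 (Sum.elim x' y' g.1.1) (Sum.elim x' y' g.1.2) := by
        rw [hinf, hinf, hsup, hsup]
        unfold BinSub at i2
        generalize Sum.elim x y g.1.1 = a
        generalize Sum.elim x y g.1.2 = b
        generalize Sum.elim x' y' g.1.1 = a'
        generalize Sum.elim x' y' g.1.2 = b'
        cases a <;> cases b <;> cases a' <;> cases b' <;> simp <;> linarith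
      simp only [total, List.map_cons, List.sum_cons] at *
      linarith
  have := key G h1
  rw [hy, hy'] at this
  linarith

end Basic

theorem Submodular.add {V : Type} {f g : (V → Bool) → ℚ} (hf : Submodular f) (hg : Submodular g) :
    Submodular (fun x => f x + g x) := fun x y => by
  have := hf x y
  have := hg x y
  show f _ + g _ + (f _ + g _) ≤ f _ + g _ + (f _ + g _)
  linarith

end Pool.Agent.R533.SM
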