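import Pool.Agent.R533.SM.Expr

/-!
# A fractional polymorphism with five components

The binary submodular functions satisfy an inequality with five arguments on both sides. Hence
expressible functions satisfy it, too.
-/

set_option autoImplicit false

namespace Pool.Agent.R533.SM

/-- The polymorphism as a table for numbers with five binary digits. -/
def tab : List ℕ := [0, 2, 2, 6, 2, 6, 3, 7, 4, 6, 6, 14, 6, 7, 7, 15, 4, 6, 6, 7, 6, 22, 7, 23, 5,
  7, 7, 15, 7, 23, 15, 31]

/-- Number with given binary digits. -/
def num (a : Fin 5 → Bool) : ℕ :=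
  (a 0).toNat + 2 * (a 1).toNat + 4 * (a 2).toNat + 8 * (a 3).toNat + 16 * (a 4).toNat

/-- The polymorphism. -/
def F (a : Fin 5 → Bool) (i : Fin 5) : Bool := (tab.getD (num a) 0).testBit i

/-- Number of coordinates which are true. -/
def cnt (a : Fin 5 → Bool) : ℕ :=
  (a 0).toNat + (a 1).toNat + (a 2).toNat + (a 3).toNat + (a 4).toNat

theorem F_key : ∀ a0 a1 a2 a3 a4 b0 b1 b2 b3 b4 : Bool,
    cnt (F ![a0, a1, a2, a3, a4]) = cnt ![a0, a1, a2, a3, a4] ∧
    cnt (fun i => ![a0, a1, a2, a3, a4] i && ![b0, b1, b2, b3, b4] i) ≤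
      cnt (fun i => F ![a0, a1, a2, a3, a4] i && F ![b0, b1, b2, b3, b4] i) := by
  decide

theorem vec_eq (a : Fin 5 → Bool) : a = ![a 0, a 1, a 2, a 3, a 4] := by
  funext i
  fin_cases i <;> rfl

theorem cnt_F (a : Fin 5 → Bool) : cnt (F a) = cnt a := by
  rw [vec_eq a]
  exact (F_key _ _ _ _ _ false false false false false).1

theorem cnt_and (a b : Fin 5 → Bool) : cnt (fun i => a i && b i) ≤ cnt (fun i => F a i && F b i) := by
  rw [vec_eq a, vec_eq b]
  exact (F_key _ _ _ _ _ _ _ _ _ _).2

theorem F_const (b : Bool) (i : Fin 5) : F (fun _ => b) i = b := by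
  cases b <;> revert i <;> decide

theorem binSub_F {g : Bool → Bool → ℚ} (hg : BinSub g) (a b : Fin 5 → Bool) :
    ∑ i, g (F a i) (F b i) ≤ ∑ i, g (a i) (b i) := by
  have key : ∀ a b : Fin 5 → Bool, ∑ i, g (a i) (b i) = 5 * g false false +
      (g true false - g false false) * cnt a + (g false true - g false false) * cnt b +
      (g false false + g true true - g false true - g true false) *
        cnt (fun i => a i && b i) := by
    intro a b
    have h1 : ∀ u v : Bool, g u v = g false false + (g true false - g false false) * u.toNat +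
        (g false true - g false false) * v.toNat +
        (g false false + g true true - g false true - g true false) * (u && v).toNat := by
      intro u v
      cases u <;> cases v <;> simp <;> ring
    rw [Fin.sum_univ_five, h1 (a 0), h1 (a 1), h1 (a 2), h1 (a 3), h1 (a 4)]
    unfold cnt
    push_cast
    ring
  rw [key, key, cnt_F, cnt_F]
  have h2 : (cnt (fun i => a i && b i) : ℚ) ≤ cnt (fun i => F a i && F b i) := by
    exact_mod_cast cnt_and a b
  unfold BinSub at hg
  nlinarith

variable {V : Type} {f : (V → Bool) → ℚ}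

/-- Expressible functions satisfy the inequality. -/
theorem Expressible.ineq (h : Expressible f) (p : Fin 5 → V → Bool) :
    ∑ i, f (fun v => F (fun j => p j v) i) ≤ ∑ i, f (p i) := by
  obtain ⟨m, G, h1, h2⟩ := h
  have h3 : ∀ i, ∃ y, total G (p i) y = f (p i) := fun i => (h2 (p i)).1
  choose y hy using h3
  have e1 : ∀ i, f (fun v => F (fun j => p j v) i) ≤
      total G (fun v => F (fun j => p j v) i) (fun v => F (fun j => y j v) i) :=
    fun i => (h2 _).2 ⟨_, rfl⟩
  have key : ∀ G : List (((V ⊕ Fin m) × (V ⊕ Fin m)) × (Bool → Bool → ℚ)),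
      (∀ g ∈ G, BinSub g.2) →
      ∑ i, total G (fun v => F (fun j => p j v) i) (fun v => F (fun j => y j v) i) ≤
        ∑ i, total G (p i) (y i) := by
    intro G
    induction G with
    | nil => intro _; simp [total]
    | cons g G ih =>
      intro hG
      have i1 := ih fun g hg => hG g (List.mem_cons_of_mem _ hg)
      have i2 := hG g List.mem_cons_self
      have hF : ∀ (i : Fin 5) (a : V ⊕ Fin m),
          Sum.elim (fun v => F (fun j => p j v) i) (fun v => F (fun j => y j v) i) a =
          F (fun j => Sum.elim (p j) (y j) a) i := by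
        intro i a; cases a <;> rfl
      have i3 := binSub_F i2 (fun j => Sum.elim (p j) (y j) g.1.1)
        (fun j => Sum.elim (p j) (y j) g.1.2)
      simp only [total, List.map_cons, List.sum_cons, Finset.sum_add_distrib] at *
      refine add_le_add ?_ i1
      simp only [hF]
      exact i3
  calc _ ≤ _ := Finset.sum_le_sum fun i _ => e1 i
    _ ≤ _ := key G h1
    _ = _ := Finset.sum_congr rfl fun i _ => hy i

end Pool.Agent.R533.SM
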