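import Pool.Agent.R533.SM.Core
import Pool.Agent.R533.SM.Neg
import Pool.Agent.H634R2.Clique

/-!
# The polynomial of a graph
-/

set_option autoImplicit false

namespace Pool.Agent.R533.SM

open Pool.Agent.NPC Pool.Agent.NPC.H634R2

/-- Pairs of numbers less than `N` in increasing order. -/
def prs (N : ℕ) : List (ℕ × ℕ) :=
  ((List.range N).flatMap fun p => (List.range N).map fun q => (p, q)).filter
    fun e => decide (e.1 < e.2)

theorem mem_prs {N : ℕ} {e : ℕ × ℕ} : e ∈ prs N ↔ e.1 < e.2 ∧ e.2 < N := by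
  unfold prs
  simp only [List.mem_filter, List.mem_flatMap, List.mem_range, List.mem_map, decide_eq_true_eq]
  constructor
  · rintro ⟨⟨p, hp, q, hq, rfl⟩, h⟩
    exact ⟨h, hq⟩
  · rintro ⟨h1, h2⟩
    exact ⟨⟨e.1, by omega, e.2, h2, rfl⟩, h1⟩

theorem nodup_prs (N : ℕ) : (prs N).Nodup := by
  unfold prs
  refine List.Nodup.filter _ ?_
  rw [List.nodup_flatMap]
  constructor
  · intro p _
    exact List.nodup_range.map fun a b h => by simpa using h
  · refine List.nodup_range.imp ?_
    intro a b hab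
    rw [Function.onFun, List.disjoint_left]
    intro x hx hx'
    simp only [List.mem_map] at hx hx'
    obtain ⟨_, _, rfl⟩ := hx
    obtain ⟨_, _, h⟩ := hx'
    simp only [Prod.mk.injEq] at h
    exact hab h.1.symm

theorem length_prs (N : ℕ) : (prs N).length ≤ N ^ 2 := by
  unfold prs
  refine (List.length_filter_le _ _).trans ?_
  rw [List.length_flatMap]
  simp [sq]

/-- Nonadjacent pairs. -/
def nad (N : ℕ) (E : List (ℕ × ℕ)) : List (ℕ × ℕ) := (prs N).filter fun e => !decide (e ∈ E)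

/-- The coefficients of the polynomial. -/
def coefZ (N c M : ℕ) (E : List (ℕ × ℕ)) : List (List ℕ × ℤ) :=
  [([0, 1], -((c + N : ℕ) : ℤ)), ([0, 2], -(c : ℤ)), ([1, 2], -(c : ℤ)), ([0, 3], -(c : ℤ)),
    ([1, 3], -(c : ℤ)), ([0, 1, 2], (c : ℤ)), ([0, 1, 3], (c : ℤ)), ([0, 1, 2, 3], -(c : ℤ))] ++
  (((List.range N).map fun p => ([0, 1, 4 + p], (1 : ℤ))) ++
  (((nad N E).map fun e => ([0, 1, 4 + e.1, 4 + e.2], -(N : ℤ))) ++
  (((prs N).map fun e => ([4 + e.1, 4 + e.2], -((4 * M * 2 ^ (e.1 + e.2) : ℕ) : ℤ))) ++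
  (((List.range N).map fun p => ([0, 4 + p], -((M * 2 ^ p : ℕ) : ℤ))) ++
  ((List.range N).map fun p => ([1, 4 + p], -((M * 2 ^ p : ℕ) : ℤ)))))))

/-- The coefficients as rational numbers. -/
def coef (N c M : ℕ) (E : List (ℕ × ℕ)) : List (List ℕ × ℚ) :=
  (coefZ N c M E).map fun m => (m.1, (m.2 : ℚ))

/-- Value of a list of monomials. -/
def ev (Y : ℕ → Bool) (c : List (List ℕ × ℤ)) : ℚ :=
  (c.map fun m => (m.2 : ℚ) * qb (m.1.all Y)).sum

theorem ev_append (Y : ℕ → Bool) (c c' : List (List ℕ × ℤ)) :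
    ev Y (c ++ c') = ev Y c + ev Y c' := by
  simp [ev]

theorem fn_eq_ev (n : ℕ) (c : List (List ℕ × ℤ)) (x : Fin n → Bool) :
    fn n (c.map fun m => (m.1, (m.2 : ℚ))) x = ev (X x) c := by
  unfold fn ev
  rw [List.map_map]
  congr 1
  refine List.map_congr_left fun m _ => ?_
  have : mon x m.1 = m.1.all (X x) := rfl
  simp only [Function.comp_apply, this, qb]
  split_ifs <;> simp

/-- The function `g'`. -/
def gp (b0 b1 b2 b3 : Bool) : ℚ :=
  - qb (b0 && b1) - qb (b0 && b2) - qb (b1 && b2) - qb (b0 && b3) - qb (b1 && b3) +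
    qb (b0 && b1 && b2) + qb (b0 && b1 && b3) - qb (b0 && b1 && b2 && b3)

/-- The quadratic function of the graph. -/
def Qf (N : ℕ) (E : List (ℕ × ℕ)) (z : ℕ → Bool) : ℚ :=
  ∑ p ∈ Finset.range N, qb (z p) - N * ((nad N E).map fun e => qb (z e.1 && z e.2)).sum

theorem Qf_congr {N : ℕ} {E : List (ℕ × ℕ)} {z z' : ℕ → Bool} (h : ∀ p < N, z p = z' p) :
    Qf N E z = Qf N E z' := by
  unfold Qf
  congr 1
  · exact Finset.sum_congr rfl fun p hp => by rw [h p (Finset.mem_range.1 hp)]
  · congr 2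
    refine List.map_congr_left fun e he => ?_
    have := (mem_prs.1 (List.mem_of_mem_filter he))
    rw [h e.1 (by omega), h e.2 (by omega)]

theorem sum_map_range (N : ℕ) (f : ℕ → ℚ) :
    ((List.range N).map f).sum = ∑ p ∈ Finset.range N, f p := by
  induction N with
  | zero => simp
  | succ N ih => rw [List.range_succ, List.map_append, List.sum_append, ih, Finset.sum_range_succ]; simp

theorem sum_prs (N : ℕ) (h : ℕ × ℕ → ℚ) :
    ((prs N).map h).sum = ∑ p ∈ Finset.range N, ∑ q ∈ Finset.range N,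
      if p < q then h (p, q) else 0 := by
  have key : ∀ l : List (ℕ × ℕ), ((l.filter fun e => decide (e.1 < e.2)).map h).sum =
      (l.map fun e => if e.1 < e.2 then h e else 0).sum := by
    intro l
    induction l with
    | nil => rfl
    | cons e l ih =>
      rw [List.filter_cons]
      split_ifs with h1
      · simp only [decide_eq_true_eq] at h1
        simp [ih, h1]
      · simp only [decide_eq_true_eq] at h1
        simp [ih, h1]
  unfold prs
  rw [key, List.map_flatMap, List.flatMap_def, List.sum_flatten, List.map_map, sum_map_range]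
  refine Finset.sum_congr rfl fun p _ => ?_
  rw [Function.comp_apply, List.map_map, sum_map_range]
  rfl

theorem sq_sum (N : ℕ) (a : ℕ → ℚ) : (∑ p ∈ Finset.range N, a p) ^ 2 =
    ∑ p ∈ Finset.range N, a p ^ 2 + 2 * ∑ p ∈ Finset.range N, ∑ q ∈ Finset.range N,
      if p < q then a p * a q else 0 := by
  induction N with
  | zero => simp
  | succ N ih =>
    rw [Finset.sum_range_succ, add_sq, ih, Finset.sum_range_succ,
      Finset.sum_range_succ (fun p => ∑ q ∈ Finset.range (N + 1), if p < q then a p * a q else 0)]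
    have h1 : ∑ q ∈ Finset.range (N + 1), (if N < q then a N * a q else 0) = 0 := by
      refine Finset.sum_eq_zero fun q hq => ?_
      rw [Finset.mem_range] at hq
      rw [if_neg (by omega)]
    have h2 : ∑ p ∈ Finset.range N, ∑ q ∈ Finset.range (N + 1), (if p < q then a p * a q else 0) =
        ∑ p ∈ Finset.range N, ∑ q ∈ Finset.range N, (if p < q then a p * a q else 0) +
          (∑ p ∈ Finset.range N, a p) * a N := by
      rw [Finset.sum_mul, ← Finset.sum_add_distrib]
      refine Finset.sum_congr rfl fun p hp => ?_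
      rw [Finset.mem_range] at hp
      rw [Finset.sum_range_succ, if_pos hp]
    rw [h1, h2]
    ring

theorem qb_and (a b : Bool) : qb (a && b) = qb a * qb b := by
  cases a <;> cases b <;> simp [qb]

theorem qb_sq (a : Bool) : qb a ^ 2 = qb a := by
  cases a <;> simp [qb]

/-- The polynomial. -/
theorem ev_coefZ (N c M : ℕ) (E : List (ℕ × ℕ)) (Y : ℕ → Bool) :
    ev Y (coefZ N c M E) = c * gp (Y 0) (Y 1) (Y 2) (Y 3) +
      (- ((N : ℚ) - Qf N E fun p => Y (4 + p)) * qb (Y 0 && Y 1)
        - 2 * M * (zeta N (fun p => Y (4 + p)) : ℚ) ^ 2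
        - M * (zeta N (fun p => Y (4 + p)) : ℚ) * (qb (Y 0) + qb (Y 1))) +
      2 * M * ∑ p ∈ Finset.range N, (2 ^ p) ^ 2 * qb (Y (4 + p)) := by
  unfold coefZ
  rw [ev_append, ev_append, ev_append, ev_append, ev_append]
  have e1 : ev Y [([0, 1], -((c + N : ℕ) : ℤ)), ([0, 2], -(c : ℤ)), ([1, 2], -(c : ℤ)),
      ([0, 3], -(c : ℤ)), ([1, 3], -(c : ℤ)), ([0, 1, 2], (c : ℤ)), ([0, 1, 3], (c : ℤ)),
      ([0, 1, 2, 3], -(c : ℤ))] = c * gp (Y 0) (Y 1) (Y 2) (Y 3) - N * qb (Y 0 && Y 1) := by
    simp only [ev, List.map_cons, List.map_nil, List.sum_cons, List.sum_nil, List.all_cons,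
      List.all_nil, Bool.and_true, gp, qb_and]
    push_cast
    ring
  have e2 : ev Y ((List.range N).map fun p => ([0, 1, 4 + p], (1 : ℤ))) =
      (∑ p ∈ Finset.range N, qb (Y (4 + p))) * qb (Y 0 && Y 1) := by
    unfold ev
    rw [List.map_map, sum_map_range, Finset.sum_mul]
    refine Finset.sum_congr rfl fun p _ => ?_
    simp only [Function.comp_apply, List.all_cons, List.all_nil, Bool.and_true, qb_and]
    push_cast
    ring
  have e3 : ev Y ((nad N E).map fun e => ([0, 1, 4 + e.1, 4 + e.2], -(N : ℤ))) =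
      -(N * ((nad N E).map fun e => qb (Y (4 + e.1) && Y (4 + e.2))).sum) * qb (Y 0 && Y 1) := by
    unfold ev
    rw [List.map_map]
    generalize nad N E = l
    induction l with
    | nil => simp
    | cons e l ih =>
      simp only [List.map_cons, List.sum_cons, Function.comp_apply, ih]
      simp only [List.all_cons, List.all_nil, Bool.and_true, qb_and]
      push_cast
      ring
  have e4 : ev Y ((prs N).map fun e => ([4 + e.1, 4 + e.2], -((4 * M * 2 ^ (e.1 + e.2) : ℕ) : ℤ))) =
      -(4 * M) * ∑ p ∈ Finset.range N, ∑ q ∈ Finset.range N,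
        if p < q then (2 ^ p * qb (Y (4 + p))) * (2 ^ q * qb (Y (4 + q))) else 0 := by
    unfold ev
    rw [List.map_map, sum_prs, Finset.mul_sum]
    refine Finset.sum_congr rfl fun p _ => ?_
    rw [Finset.mul_sum]
    refine Finset.sum_congr rfl fun q _ => ?_
    simp only [Function.comp_apply, List.all_cons, List.all_nil, Bool.and_true, qb_and]
    split_ifs
    · push_cast
      ring
    · ring
  have e5 : ∀ i : ℕ, ev Y ((List.range N).map fun p => ([i, 4 + p], -((M * 2 ^ p : ℕ) : ℤ))) =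
      -M * (zeta N (fun p => Y (4 + p)) : ℚ) * qb (Y i) := by
    intro i
    unfold ev
    rw [List.map_map, sum_map_range, zeta_cast, Finset.mul_sum, Finset.sum_mul]
    refine Finset.sum_congr rfl fun p _ => ?_
    simp only [Function.comp_apply, List.all_cons, List.all_nil, Bool.and_true, qb_and]
    push_cast
    ring
  have e6 := sq_sum N fun p => 2 ^ p * qb (Y (4 + p))
  have e7 : ∑ p ∈ Finset.range N, (2 ^ p * qb (Y (4 + p))) ^ 2 =
      ∑ p ∈ Finset.range N, (2 ^ p) ^ 2 * qb (Y (4 + p)) := by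
    refine Finset.sum_congr rfl fun p _ => ?_
    rw [mul_pow, qb_sq]
  rw [e7] at e6
  rw [e1, e2, e3, e4, e5, e5, Qf]
  have e8 : (zeta N (fun p => Y (4 + p)) : ℚ) = ∑ p ∈ Finset.range N, 2 ^ p * qb (Y (4 + p)) :=
    zeta_cast N _
  rw [← e8] at e6
  rw [e6]
  ring

/-! ### Validity of the list of coefficients -/

theorem isDeg4_coef {N c M : ℕ} (E : List (ℕ × ℕ)) (hN : 0 < N) (hc : 0 < c) (hM : 0 < M) :
    IsDeg4 (4 + N, coef N c M E) := by
  have hc' : (c : ℤ) ≠ 0 := by exact_mod_cast hc.ne'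
  have hN' : (N : ℤ) ≠ 0 := by exact_mod_cast hN.ne'
  have hmem : ∀ e, e ∈ nad N E → e.1 < e.2 ∧ e.2 < N := fun e he =>
    mem_prs.1 (List.mem_of_mem_filter he)
  refine ⟨?_, ?_, ⟨([0, 1, 2, 3], ((-(c : ℤ) : ℤ) : ℚ)), ?_, rfl⟩⟩
  · have e1 : (coef N c M E).map Prod.fst = (coefZ N c M E).map Prod.fst := by
      unfold coef
      rw [List.map_map]
      rfl
    show ((coef N c M E).map Prod.fst).Nodup
    rw [e1]
    unfold coefZ
    simp only [List.map_append, List.map_map]
    have n1 : ((List.range N).map (Prod.fst ∘ fun p => ([0, 1, 4 + p], (1 : ℤ)))).Nodup :=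
      List.nodup_range.map fun a b h => by simpa using h
    have n2 : ((nad N E).map (Prod.fst ∘ fun e => ([0, 1, 4 + e.1, 4 + e.2], -(N : ℤ)))).Nodup := by
      refine ((nodup_prs N).filter _).map fun a b h => ?_
      simp only [Function.comp_apply, List.cons.injEq] at h
      exact Prod.ext (by omega) (by omega)
    have n3 : ((prs N).map (Prod.fst ∘ fun e =>
        ([4 + e.1, 4 + e.2], -((4 * M * 2 ^ (e.1 + e.2) : ℕ) : ℤ)))).Nodup := by
      refine (nodup_prs N).map fun a b h => ?_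
      simp only [Function.comp_apply, List.cons.injEq] at h
      exact Prod.ext (by omega) (by omega)
    have n4 : ∀ i : ℕ, ((List.range N).map (Prod.fst ∘ fun p =>
        ([i, 4 + p], -((M * 2 ^ p : ℕ) : ℤ)))).Nodup := fun i =>
      List.nodup_range.map fun a b h => by simpa using h
    refine List.Nodup.append (by simp) (List.Nodup.append n1 (List.Nodup.append n2
      (List.Nodup.append n3 (List.Nodup.append (n4 0) (n4 1) ?_) ?_) ?_) ?_) ?_
    all_goals
      rw [List.disjoint_left]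
      intro a ha hb
      simp only [List.mem_append, List.mem_map, Function.comp_apply, List.mem_range,
        List.map_cons, List.map_nil, List.mem_cons, List.not_mem_nil, or_false] at ha hb
    · obtain ⟨p, _, rfl⟩ := ha
      simp at hb
    · obtain ⟨e, he, rfl⟩ := ha
      rcases hb with ⟨p, _, hb⟩ | ⟨p, _, hb⟩ <;> simp at hb <;> omega
    · obtain ⟨e, he, rfl⟩ := ha
      rcases hb with ⟨p, _, hb⟩ | ⟨p, _, hb⟩ | ⟨p, _, hb⟩ <;> simp at hb
    · obtain ⟨e, he, rfl⟩ := ha
      rcases hb with ⟨p, _, hb⟩ | ⟨p, _, hb⟩ | ⟨p, _, hb⟩ | ⟨p, _, hb⟩ <;> simp at hb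
    · rcases hb with ⟨p, _, rfl⟩ | ⟨p, _, rfl⟩ | ⟨p, _, rfl⟩ | ⟨p, _, rfl⟩ | ⟨p, _, rfl⟩ <;>
        simp at ha <;> omega
  · intro m hm
    unfold coef at hm
    rw [List.mem_map] at hm
    obtain ⟨m', hm', rfl⟩ := hm
    show m'.1.Pairwise (· < ·) ∧ (∀ i ∈ m'.1, i < 4 + N) ∧ m'.1.length ≤ 4 ∧ ((m'.2 : ℤ) : ℚ) ≠ 0
    rw [Ne, Int.cast_eq_zero]
    unfold coefZ at hm'
    simp only [List.mem_append, List.mem_map, List.mem_range] at hm'
    rcases hm' with h | ⟨p, hp, rfl⟩ | ⟨e, he, rfl⟩ | ⟨e, he, rfl⟩ | ⟨p, hp, rfl⟩ | ⟨p, hp, rfl⟩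
    · simp only [List.mem_cons, List.not_mem_nil, or_false] at h
      rcases h with rfl | rfl | rfl | rfl | rfl | rfl | rfl | rfl <;>
        refine ⟨by simp, ?_, by simp, by simp <;> omega⟩ <;>
        (intro i hi; simp only [List.mem_cons, List.not_mem_nil, or_false] at hi; omega)
    · refine ⟨by simp; omega, ?_, by simp, by simp⟩
      intro i hi; simp only [List.mem_cons, List.not_mem_nil, or_false] at hi; omega
    · have := hmem e he
      refine ⟨by simp; omega, ?_, by simp, by simp; omega⟩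
      intro i hi; simp only [List.mem_cons, List.not_mem_nil, or_false] at hi; omega
    · have := mem_prs.1 he
      refine ⟨by simp; omega, ?_, by simp, by simp; omega⟩
      intro i hi; simp only [List.mem_cons, List.not_mem_nil, or_false] at hi; omega
    · refine ⟨by simp, ?_, by simp, by simp; omega⟩
      intro i hi; simp only [List.mem_cons, List.not_mem_nil, or_false] at hi; omega
    · refine ⟨by simp; omega, ?_, by simp, by simp; omega⟩
      intro i hi; simp only [List.mem_cons, List.not_mem_nil, or_false] at hi; omega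
  · show _ ∈ coef N c M E
    unfold coef coefZ
    rw [List.mem_map]
    exact ⟨([0, 1, 2, 3], -(c : ℤ)), by simp, rfl⟩

end Pool.Agent.R533.SM
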