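import Pool.Agent.R533.SM.Corr
import Pool.Agent.H671R2.PolyAuto
import Pool.Agent.H687R2.IntPoly
import Pool.Agent.NPC.Sat2
import Pool.Agent.NPC.Dec

/-!
# The reduction is computable in polynomial time
-/

set_option autoImplicit false

namespace Pool.Agent.NPC.R533.SM

open Pool.Agent.NPC Pool.Agent.NPC.H634R2 Pool.Agent.R533.SM

/-- The instance of a formula. -/
def inst (φ : List Cl3) : ℕ × List (List ℕ × ℚ) :=
  (4 + 3 * φ.length, coef (3 * φ.length) (3 * φ.length + 1 - φ.length) (Mb (3 * φ.length)) (gE φ))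

theorem inst_deg4 {φ : List Cl3} (h : φ ≠ []) : IsDeg4 (inst φ) := by
  have h1 : 0 < φ.length := List.length_pos_iff.2 h
  exact isDeg4_coef _ (by omega) (by omega) (by unfold Mb; positivity)

theorem inst_sub (φ : List Cl3) : Submodular (fn (inst φ).1 (inst φ).2) :=
  submodular_coef _ _

/-- The quadratic function of a formula. -/
theorem Qf_clique {φ : List Cl3} (h : SAT3 φ) :
    ∃ z, (φ.length : ℚ) ≤ Qf (3 * φ.length) (gE φ) z := by
  classical
  obtain ⟨K, hK1, hK2, hK3⟩ := (hasClique_g φ).2 h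
  have hK : K ⊆ Finset.range (3 * φ.length) := fun v hv => by
    rw [Finset.mem_range, ← mem_gV]
    exact hK1 v hv
  refine ⟨fun p => decide (p ∈ K), ?_⟩
  unfold Qf
  have h1 : ∑ p ∈ Finset.range (3 * φ.length), qb (decide (p ∈ K)) = φ.length := by
    unfold qb
    simp only [decide_eq_true_eq]
    rw [Finset.sum_ite_mem, Finset.inter_eq_right.2 hK]
    simp [hK2]
  have h2 : ((nad (3 * φ.length) (gE φ)).map fun e =>
      qb (decide (e.1 ∈ K) && decide (e.2 ∈ K))).sum = 0 := by
    refine List.sum_eq_zero fun a ha => ?_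
    rw [List.mem_map] at ha
    obtain ⟨e, he, rfl⟩ := ha
    unfold nad at he
    rw [List.mem_filter, mem_prs] at he
    obtain ⟨⟨he1, he2⟩, he3⟩ := he
    unfold qb
    rw [if_neg]
    simp only [Bool.and_eq_true, decide_eq_true_eq]
    rintro ⟨h4, h5⟩
    rcases hK3 _ h4 _ h5 (by omega) with h6 | h6
    · simp [h6] at he3
    · have := gE_lt h6
      omega
  rw [h1, h2]
  simp

theorem Qf_noclique {φ : List Cl3} (h0 : φ ≠ []) (h : ¬ SAT3 φ) (z : ℕ → Bool) :
    Qf (3 * φ.length) (gE φ) z ≤ (φ.length : ℚ) - 1 := by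
  classical
  have hm : 1 ≤ φ.length := List.length_pos_iff.2 h0
  have hm' : (1 : ℚ) ≤ φ.length := by exact_mod_cast hm
  by_cases hE : ∃ e ∈ nad (3 * φ.length) (gE φ), z e.1 = true ∧ z e.2 = true
  · obtain ⟨e, he, h1, h2⟩ := hE
    have h3 : 1 ≤ ((nad (3 * φ.length) (gE φ)).map fun e => qb (z e.1 && z e.2)).sum := by
      have h4 : qb (z e.1 && z e.2) ≤
          ((nad (3 * φ.length) (gE φ)).map fun e => qb (z e.1 && z e.2)).sum := by
        refine List.single_le_sum ?_ _ (List.mem_map.2 ⟨e, he, rfl⟩)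
        intro a ha
        rw [List.mem_map] at ha
        obtain ⟨e, _, rfl⟩ := ha
        unfold qb; split_ifs <;> norm_num
      simpa [h1, h2, qb] using h4
    have h4 : ∑ p ∈ Finset.range (3 * φ.length), qb (z p) ≤ ((3 * φ.length : ℕ) : ℚ) := by
      calc _ ≤ ∑ p ∈ Finset.range (3 * φ.length), (1 : ℚ) := Finset.sum_le_sum fun p _ => by
              unfold qb; split_ifs <;> norm_num
        _ = _ := by simp
    unfold Qf
    have h5 : (0 : ℚ) ≤ ((3 * φ.length : ℕ) : ℚ) := Nat.cast_nonneg _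
    nlinarith
  · push Not at hE
    let S : Finset ℕ := (Finset.range (3 * φ.length)).filter fun p => z p = true
    have h1 : ∑ p ∈ Finset.range (3 * φ.length), qb (z p) = S.card := by
      unfold qb
      rw [← Finset.sum_filter]
      simp [S]
    have h2 : ((nad (3 * φ.length) (gE φ)).map fun e => qb (z e.1 && z e.2)).sum = 0 := by
      refine List.sum_eq_zero fun a ha => ?_
      rw [List.mem_map] at ha
      obtain ⟨e, he, rfl⟩ := ha
      unfold qb
      rw [if_neg]
      simp only [Bool.and_eq_true]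
      rintro ⟨h4, h5⟩
      exact hE e he h4 h5
    have h3 : S.card < φ.length := by
      by_contra hc
      push Not at hc
      obtain ⟨K, hKS, hKc⟩ := Finset.exists_subset_card_eq hc
      refine h ((hasClique_g φ).1 ⟨K, ?_, hKc, ?_⟩)
      · intro v hv
        rw [mem_gV]
        have := hKS hv
        simp only [S, Finset.mem_filter, Finset.mem_range] at this
        exact this.1
      · intro u hu v hv huv
        have hu' := hKS hu
        have hv' := hKS hv
        simp only [S, Finset.mem_filter, Finset.mem_range] at hu' hv'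
        have key : ∀ u v : ℕ, u < v → v < 3 * φ.length → z u = true → z v = true →
            (u, v) ∈ gE φ := by
          intro u v h1 h2 h3 h4
          by_contra h5
          exact hE (u, v) (List.mem_filter.2 ⟨mem_prs.2 ⟨h1, h2⟩, by simpa using h5⟩) h3 h4
        rcases lt_or_gt_of_ne huv with h4 | h4
        · exact Or.inl (key u v h4 hv'.1 hu'.2 hv'.2)
        · exact Or.inr (key v u h4 hu'.1 hv'.2 hu'.2)
    unfold Qf
    rw [h1, h2]
    have : (S.card : ℚ) + 1 ≤ φ.length := by exact_mod_cast h3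
    linarith

/-- Correctness of the reduction. -/
theorem inst_iff {φ : List Cl3} (h0 : φ ≠ []) :
    SAT3 φ ↔ ¬ Expressible (fn (inst φ).1 (inst φ).2) := by
  have hm : 1 ≤ φ.length := List.length_pos_iff.2 h0
  constructor
  · intro h
    obtain ⟨z, hz⟩ := Qf_clique h
    exact not_expressible_coef (by omega) _ z hz
  · intro h
    by_contra hs
    exact h (expressible_coef (by omega) _ (Qf_noclique h0 hs))

/-! ### Computability -/

section Comp

variable {α : Type} [TEnc α]

theorem poly_intCast {f : α → ℤ} (hf : Poly f) : Poly (fun a => ((f a : ℤ) : ℚ)) :=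
  NPC.Poly.of_toT ((NPC.Poly.toT' (NPC.Poly.pair hf (NPC.Poly.const (1 : ℕ)))).congr fun a => by
    change toT (f a, 1) = toT (((f a : ℤ) : ℚ).num, ((f a : ℤ) : ℚ).den)
    rw [Rat.num_intCast, Rat.den_intCast])

/-- two to a power computable in unary is polynomial-time computable -/
theorem poly_two_pow {n : α → ℕ} (hn : UPoly n) : Poly (fun a => 2 ^ n a) :=
  NPC.Poly.npow (NPC.Poly.const 2) hn

theorem poly_coefZ {N c M : α → ℕ} {E : α → List (ℕ × ℕ)} (hN : UPoly N) (hc : Poly c)
    (hM : Poly M) (hE : Poly E) : Poly (fun a => coefZ (N a) (c a) (M a) (E a)) := by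
  have hN' : Poly N := hN.toPoly
  have hrange : Poly (fun a => List.range (N a)) := hN.range
  have hprs : Poly (fun a => prs (N a)) := by
    unfold prs
    refine NPC.Poly.filter (p := fun a (e : ℕ × ℕ) => decide (e.1 < e.2)) ?_ ?_
    · refine NPC.Poly.flatMap (F := fun a p => (List.range (N a)).map fun q => (p, q)) hrange ?_
      exact NPC.Poly.map (F := fun (b : α × ℕ) q => (b.2, q))
        (NPC.Poly.comp (g := fun a => List.range (N a)) hrange (NPC.Poly.fst NPC.Poly.id))
        (by fun_prop)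
    · exact NPC.Poly.decide_lt (by fun_prop) (by fun_prop)
  have hnad : Poly (fun a => nad (N a) (E a)) := by
    unfold nad
    refine NPC.Poly.filter (p := fun a (e : ℕ × ℕ) => !decide (e ∈ E a)) hprs ?_
    exact NPC.Poly.not (NPC.Poly.dec_mem (by fun_prop)
      (NPC.Poly.comp (g := E) hE (NPC.Poly.fst NPC.Poly.id)))
  have hN1 : UPoly (fun a : α × ℕ => N a.1) := hN.comp (NPC.Poly.fst NPC.Poly.id)
  have hN2 : UPoly (fun a : α × (ℕ × ℕ) => N a.1) := hN.comp (NPC.Poly.fst NPC.Poly.id)
  have hM1 : Poly (fun a : α × ℕ => M a.1) := by fun_prop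
  have hM2 : Poly (fun a : α × (ℕ × ℕ) => M a.1) := by fun_prop
  unfold coefZ
  refine NPC.Poly.append ?_ (NPC.Poly.append ?_ (NPC.Poly.append ?_ (NPC.Poly.append ?_
    (NPC.Poly.append ?_ ?_))))
  · have h1 : Poly (fun a => ((c a : ℕ) : ℤ)) := NPC.Poly.natCast_int hc
    have h2 : Poly (fun a => -((c a : ℕ) : ℤ)) := NPC.Poly.ineg h1
    have h3 : Poly (fun a => -((c a + N a : ℕ) : ℤ)) :=
      NPC.Poly.ineg (NPC.Poly.natCast_int (NPC.Poly.add hc hN'))
    fun_prop
  · fun_prop
  · refine NPC.Poly.map (F := fun a (e : ℕ × ℕ) => ([0, 1, 4 + e.1, 4 + e.2], -(N a : ℤ))) hnad ?_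
    have h2 : Poly (fun a : α × (ℕ × ℕ) => -((N a.1 : ℕ) : ℤ)) :=
      NPC.Poly.ineg (NPC.Poly.natCast_int hN2.toPoly)
    fun_prop
  · refine (NPC.Poly.map (F := fun a (e : ℕ × ℕ) => ([4 + e.1, 4 + e.2],
      -((4 * M a * 2 ^ (min (e.1 + e.2) (2 * N a)) : ℕ) : ℤ))) hprs ?_).congr fun a => ?_
    · have h1 : UPoly (fun a : α × (ℕ × ℕ) => min (a.2.1 + a.2.2) (2 * N a.1)) :=
        UPoly.of_le (NPC.Poly.min (by fun_prop) ((UPoly.const 2).mul hN2).toPoly)
          ((UPoly.const 2).mul hN2) fun a => min_le_right _ _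
      have h2 : Poly (fun a : α × (ℕ × ℕ) =>
          -((4 * M a.1 * 2 ^ (min (a.2.1 + a.2.2) (2 * N a.1)) : ℕ) : ℤ)) :=
        NPC.Poly.ineg (NPC.Poly.natCast_int (NPC.Poly.mul (NPC.Poly.mul (NPC.Poly.const 4) hM2)
          (poly_two_pow h1)))
      fun_prop
    · refine List.map_congr_left fun e he => ?_
      have := mem_prs.1 he
      rw [min_eq_left (by omega)]
  · refine (NPC.Poly.map (F := fun a (p : ℕ) => ([0, 4 + p],
      -((M a * 2 ^ (min p (N a)) : ℕ) : ℤ))) hrange ?_).congr fun a => ?_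
    · have h1 : UPoly (fun a : α × ℕ => min a.2 (N a.1)) :=
        UPoly.of_le (NPC.Poly.min (by fun_prop) hN1.toPoly) hN1 fun a => min_le_right _ _
      have h2 : Poly (fun a : α × ℕ => -((M a.1 * 2 ^ (min a.2 (N a.1)) : ℕ) : ℤ)) :=
        NPC.Poly.ineg (NPC.Poly.natCast_int (NPC.Poly.mul hM1 (poly_two_pow h1)))
      fun_prop
    · refine List.map_congr_left fun p hp => ?_
      have := List.mem_range.1 hp
      rw [min_eq_left (by omega)]
  · refine (NPC.Poly.map (F := fun a (p : ℕ) => ([1, 4 + p],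
      -((M a * 2 ^ (min p (N a)) : ℕ) : ℤ))) hrange ?_).congr fun a => ?_
    · have h1 : UPoly (fun a : α × ℕ => min a.2 (N a.1)) :=
        UPoly.of_le (NPC.Poly.min (by fun_prop) hN1.toPoly) hN1 fun a => min_le_right _ _
      have h2 : Poly (fun a : α × ℕ => -((M a.1 * 2 ^ (min a.2 (N a.1)) : ℕ) : ℤ)) :=
        NPC.Poly.ineg (NPC.Poly.natCast_int (NPC.Poly.mul hM1 (poly_two_pow h1)))
      fun_prop
    · refine List.map_congr_left fun p hp => ?_
      have := List.mem_range.1 hp
      rw [min_eq_left (by omega)]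

theorem poly_inst : Poly inst := by
  have hN : UPoly (fun φ : List Cl3 => 3 * φ.length) := (UPoly.const 3).mul (UPoly.length NPC.Poly.id)
  have hc : Poly (fun φ : List Cl3 => 3 * φ.length + 1 - φ.length) := by fun_prop
  have hM : Poly (fun φ : List Cl3 => Mb (3 * φ.length)) := by
    unfold Mb
    exact NPC.Poly.mul (NPC.Poly.const 4) (NPC.Poly.npow (by fun_prop) (UPoly.const 3))
  unfold inst
  refine NPC.Poly.pair (NPC.Poly.add (NPC.Poly.const 4) hN.toPoly) ?_
  unfold coef
  refine NPC.Poly.map (F := fun _ (m : List ℕ × ℤ) => (m.1, (m.2 : ℚ)))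
    (poly_coefZ hN hc hM gE_poly) ?_
  exact NPC.Poly.pair (by fun_prop) (poly_intCast (by fun_prop))

end Comp

/-- The reduction. -/
theorem hardPr_expressible : HardPr
    (fun I : ℕ × List (List ℕ × ℚ) => IsDeg4 I ∧ Submodular (fn I.1 I.2))
    (fun I => ¬ Expressible (fn I.1 I.2)) :=
  hardPr_SAT3b.trans poly_inst (fun φ hφ => ⟨inst_deg4 hφ.2.2, inst_sub φ⟩)
    fun _ hφ => inst_iff hφ.2.2

end Pool.Agent.NPC.R533.SM
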